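import Pool.Agent.W674.IPS.Core
import Pool.Agent.W717.UR.Asm

/-!
# MP_145b75_an, Q2: uniformly recurrent operators need not be `IP*`-recurrent
-/

set_option autoImplicit false

namespace Pool.Agent.Results.MP_145b75_an.UniformNotIPStar

open Filter Topology Pool.Agent.W674.IPS

/-- **Q2 of MP_145b75_an, positive answer.** There are a (real) Banach space `X` and a bounded
linear operator `T` on `X` which is uniformly recurrent (the set of uniformly recurrent vectors is
dense) but not `IP*`-recurrent (the set of `IP*`-recurrent vectors is not dense). -/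
theorem result : ∃ (X : Type) (_ : NormedAddCommGroup X) (_ : NormedSpace ℝ X)
    (_ : CompleteSpace X) (T : X →L[ℝ] X),
    Dense {x : X | UnifRec T x} ∧ ¬ Dense {x : X | IPStarRec T x} := by
  obtain ⟨X, i1, i2, i3, T, hd, hn⟩ := Pool.Agent.W717.UR.asm
  exact ⟨X, i1, i2, i3, T, dense_unif T hd, not_dense_ip T hn⟩

end Pool.Agent.Results.MP_145b75_an.UniformNotIPStar
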